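import Pool.Agent.K9h27.HG.Main

/-!
# Zeros of block-affine polynomials at logarithms: algebraic coefficients
-/

set_option autoImplicit false

namespace Pool.Agent.K9h27.HG

open Finset
open Pool.Agent.H301R2.SSE (QB mem_QB Lt)

/-- the top monomials, for algebraic coefficients -/
def TopA {D n : ℕ} (c : (Fin (D + 1) → Option (Fin n)) → ℂ) (k : Fin (D + 1) → Option (Fin n)) :
    Prop :=
  c k ≠ 0 ∧ ∀ k', c k' ≠ 0 → ∀ d, d ≠ Fin.last D → k d = none → k' d = none

/-- every top monomial contains a variable of `V`, and `V` contains no variable of the last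
block -/
def CoverA {D n : ℕ} (S : Set ((Fin (D + 1) → Option (Fin n)) → ℂ))
    (V : Finset (Fin (D + 1) × Fin n)) : Prop :=
  (∀ p ∈ V, p.1 ≠ Fin.last D) ∧ ∀ c ∈ S, ∀ k, TopA c k → ∃ d i, k d = some i ∧ (d, i) ∈ V

open Classical in
theorem cover_univA {D n : ℕ} {ι : Type} (w : ι → ℂ)
    (hw : LinearIndependent QB (fun o : Option ι => o.elim 1 w))
    (S : Set ((Fin (D + 1) → Option (Fin n)) → ℂ)) (hS : ∀ c ∈ S, ∀ k, IsAlgebraic ℚ (c k))
    (g : Fin (D + 1) → Fin n → ι) (hgi : Function.Injective (g (Fin.last D)))
    (hg : ∀ c ∈ S, val w c g = 0) :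
    CoverA S (univ.filter fun p => p.1 ≠ Fin.last D) := by
  refine ⟨fun p hp => (mem_filter.1 hp).2, ?_⟩
  intro c hc k hk
  by_contra h
  have hnone : ∀ d, d ≠ Fin.last D → k d = none := by
    intro d hd'
    rcases hd : k d with _ | i
    · rfl
    · exact absurd ⟨d, i, hd, mem_filter.2 ⟨mem_univ _, hd'⟩⟩ h
  let e : Option (Fin n) → (Fin (D + 1) → Option (Fin n)) := fun o =>
    Function.update (fun _ => none) (Fin.last D) o
  have he : Function.Injective e := by
    intro a b hab
    have h1 := congrFun hab (Fin.last D)
    simpa only [e, Function.update_self] using h1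
  have hrange : ∀ k', c k' ≠ 0 → e (k' (Fin.last D)) = k' := by
    intro k' hk'
    funext d
    by_cases hd : d = Fin.last D
    · subst hd
      simp only [e, Function.update_self]
    · simp only [e, Function.update_of_ne hd]
      exact (hk.2 k' hk' d hd (hnone d hd)).symm
  have h1 : val w c g = ∑ o : Option (Fin n), c (e o) *
      o.elim 1 (fun i => w (g (Fin.last D) i)) := by
    unfold val
    symm
    refine Fintype.sum_of_injective e he _ _ ?_ ?_
    · intro k' hk'
      have h2 : c k' = 0 := by
        by_contra h3
        exact hk' ⟨_, hrange k' h3⟩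
      rw [h2, zero_mul]
    · intro o
      congr 1
      rw [prod_eq_single (Fin.last D)]
      · simp only [e, Function.update_self]
      · intro d _ hd
        simp only [e, Function.update_of_ne hd, Option.elim_none]
      · intro h3
        exact absurd (mem_univ _) h3
  have h2 := hw.comp (Option.map (g (Fin.last D))) (Option.map_injective hgi)
  rw [Fintype.linearIndependent_iff] at h2
  have h3 := h2 (fun o => ⟨c (e o), mem_QB.2 (hS c hc _)⟩) (by
    rw [← hg c hc, h1]
    refine sum_congr rfl fun o _ => ?_
    rw [Algebra.smul_def]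
    cases o with
    | none => rfl
    | some i => rfl) (k (Fin.last D))
  have h4 : c (e (k (Fin.last D))) = 0 := congrArg Subtype.val h3
  rw [hrange k hk.1] at h4
  exact hk.1 h4

/-- **The bound for algebraic coefficients.** -/
theorem cover_boundA (n D : ℕ) {ι : Type} [Fintype ι] [DecidableEq ι]
    (hN : 0 < Fintype.card ι)
    (w : ι → ℂ) (hw : LinearIndependent QB (fun o : Option ι => o.elim 1 w))
    (hL : ∀ i, w i ∈ Lt) (S : Set ((Fin (D + 1) → Option (Fin n)) → ℂ))
    (hS : ∀ c ∈ S, ∀ k, IsAlgebraic ℚ (c k)) (t : ℕ)
    (ht : ∀ V, CoverA S V → t ≤ V.card) (B : Finset (Fin (D + 1) → Fin n → ι))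
    (hB : ∀ f ∈ B, (∀ d, Function.Injective (f d)) ∧ ∀ c ∈ S, val w c f = 0) :
    B.card ≤ KD n (D + 1) * Fintype.card ι ^ ((D + 1) * n - t) := by
  classical
  induction D generalizing t with
  | zero =>
    rcases Finset.eq_empty_or_nonempty B with hemp | ⟨f1, hf1⟩
    · rw [hemp, card_empty]
      exact Nat.zero_le _
    have h1 := ht _ (cover_univA w hw S hS f1 ((hB f1 hf1).1 _) (hB f1 hf1).2)
    have h2 : (univ.filter fun p : Fin (0 + 1) × Fin n => p.1 ≠ Fin.last 0) = ∅ := by
      rw [Finset.filter_eq_empty_iff]
      intro p _ hp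
      exact hp (Fin.ext (by
        have h3 := p.1.isLt
        rw [Fin.val_last]
        omega))
    rw [h2, card_empty] at h1
    have h3 : t = 0 := by omega
    subst h3
    have h5 := card_le_univ B
    rw [Fintype.card_fun, Fintype.card_fun, Fintype.card_fin, Fintype.card_fin] at h5
    have e1 : (Fintype.card ι ^ n) ^ (0 + 1) = Fintype.card ι ^ ((0 + 1) * n - 0) := by
      rw [Nat.sub_zero, ← pow_mul, mul_comm]
    refine (h5.trans (le_of_eq e1)).trans (Nat.le_mul_of_pos_left _ ?_)
    rw [KD]
    positivity
  | succ D ih =>
    let Zf : (Fin (D + 1) → Fin n → ι) → Finset (Fin n) := fun g =>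
      univ.filter fun i => ∀ c ∈ S, val w (slice c (some i)) g = 0
    let BZ : Finset (Fin n) → Finset (Fin (D + 1 + 1) → Fin n → ι) := fun Z =>
      B.filter fun f => Zf (Fin.tail f) = Z
    have hcov : B ⊆ univ.biUnion BZ := fun f hf =>
      mem_biUnion.2 ⟨Zf (Fin.tail f), mem_univ _, mem_filter.2 ⟨hf, rfl⟩⟩
    have h0last : (0 : Fin (D + 1 + 1)) ≠ Fin.last (D + 1) := by
      intro h
      have := congrArg Fin.val h
      simp at this
    have hslast : ∀ d : Fin (D + 1), d ≠ Fin.last D → d.succ ≠ Fin.last (D + 1) := by
      intro d hd h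
      apply hd
      apply Fin.succ_injective
      rw [h, Fin.succ_last]
    have hBZ : ∀ Z, (BZ Z).card ≤ (((n + 1) ^ 2 * n + 1) ^ (n + 1)) ^ n * KD n (D + 1) *
        Fintype.card ι ^ ((D + 1 + 1) * n - t) := by
      intro Z
      rcases Finset.eq_empty_or_nonempty (BZ Z) with hemp | ⟨f1, hf1⟩
      · rw [hemp, card_empty]
        exact Nat.zero_le _
      let S' : Set ((Fin (D + 1) → Option (Fin n)) → ℂ) := {c' | ∃ c ∈ S,
        (∃ i ∈ Z, c' = slice c (some i)) ∨ (c' = slice c none ∧ ∀ i, slice c (some i) = 0)}
      have hS' : ∀ c' ∈ S', ∀ k, IsAlgebraic ℚ (c' k) := by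
        rintro c' ⟨c, hc, ⟨i, hi, rfl⟩ | ⟨rfl, h0⟩⟩ k
        · exact hS c hc _
        · exact hS c hc _
      have hZn : Z.card ≤ n := (card_le_univ Z).trans (le_of_eq (Fintype.card_fin n))
      -- common zeros
      have hzero : ∀ f ∈ BZ Z, ∀ c' ∈ S', val w c' (Fin.tail f) = 0 := by
        intro f hf
        have hf := mem_filter.1 hf
        rintro c' ⟨c, hc, ⟨i, hi, rfl⟩ | ⟨rfl, h0⟩⟩
        · have h2 : i ∈ Zf (Fin.tail f) := by
            rw [hf.2]
            exact hi
          exact (mem_filter.1 h2).2 c hc
        · have h2 := (hB f hf.1).2 c hc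
          rw [val_succ] at h2
          rw [← h2]
          have h3 : ∀ i, val w (slice c (some i)) (Fin.tail f) = 0 := by
            intro i
            rw [h0 i]
            simp [val]
          simp only [h3, zero_mul, sum_const_zero, add_zero]
      have htV : ∀ V' : Finset (Fin (D + 1) × Fin n), CoverA S' V' →
          t - (n - Z.card) ≤ V'.card := by
        intro V' hV'
        let V : Finset (Fin (D + 1 + 1) × Fin n) :=
          (Zᶜ.map ⟨fun i => ((0 : Fin (D + 1 + 1)), i), fun a b h => congrArg Prod.snd h⟩) ∪
            (V'.map ⟨fun p => (p.1.succ, p.2), fun a b h => by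
              have h2 := congrArg Prod.fst h
              have h3 := congrArg Prod.snd h
              exact Prod.ext (Fin.succ_injective _ h2) h3⟩)
        have hV : V.card ≤ (n - Z.card) + V'.card := by
          refine (card_union_le _ _).trans ?_
          rw [card_map, card_map, card_compl, Fintype.card_fin]
        have hcover : CoverA S V := by
          refine ⟨?_, ?_⟩
          · intro p hp
            rcases mem_union.1 hp with hp | hp
            · obtain ⟨i, -, rfl⟩ := mem_map.1 hp
              exact h0last
            · obtain ⟨q, hq, rfl⟩ := mem_map.1 hp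
              exact hslast _ (hV'.1 q hq)
          intro c hc k hk
          rcases hk0 : k 0 with _ | i
          · -- the block `0` does not occur
            have h2 : ∀ i, slice c (some i) = 0 := by
              intro i
              funext k'
              by_contra h3
              have h4 := hk.2 _ h3 0 h0last hk0
              rw [Fin.cons_zero] at h4
              exact absurd h4 (by simp)
            obtain ⟨d, i, h5, h6⟩ := hV'.2 (slice c none) ⟨c, hc, Or.inr ⟨rfl, h2⟩⟩
              (Fin.tail k) (by
              refine ⟨?_, ?_⟩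
              · rw [slice, ← hk0, Fin.cons_self_tail]
                exact hk.1
              · intro k' hk' d hdl hd
                have h7 := hk.2 _ hk' d.succ (hslast d hdl) hd
                rwa [Fin.cons_succ] at h7)
            refine ⟨d.succ, i, h5, mem_union_right _ (mem_map.2 ⟨(d, i), h6, rfl⟩)⟩
          · by_cases hi : i ∈ Z
            · obtain ⟨d, j, h5, h6⟩ := hV'.2 (slice c (some i)) ⟨c, hc, Or.inl ⟨i, hi, rfl⟩⟩
                (Fin.tail k) (by
                  refine ⟨?_, ?_⟩
                  · rw [slice, ← hk0, Fin.cons_self_tail]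
                    exact hk.1
                  · intro k' hk' d hdl hd
                    have h7 := hk.2 _ hk' d.succ (hslast d hdl) hd
                    rwa [Fin.cons_succ] at h7)
              refine ⟨d.succ, j, h5, mem_union_right _ (mem_map.2 ⟨(d, j), h6, rfl⟩)⟩
            · exact ⟨0, i, hk0, mem_union_left _ (mem_map.2 ⟨i, mem_compl.2 hi, rfl⟩)⟩
        have h2 := ht V hcover
        omega
      have hle : t - (n - Z.card) ≤ (D + 1) * n := by
        have h2 := htV _ (cover_univA w hw S' hS' (Fin.tail f1)
          ((hB f1 (mem_filter.1 hf1).1).1 _) (hzero f1 hf1))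
        refine h2.trans ((card_le_univ _).trans (le_of_eq ?_))
        rw [Fintype.card_prod, Fintype.card_fin, Fintype.card_fin]
      -- the image
      have h1 := ih S' hS' (t - (n - Z.card)) htV
        ((BZ Z).image fun f => Fin.tail f) (by
          intro g hg
          obtain ⟨f, hf, rfl⟩ := mem_image.1 hg
          exact ⟨fun d => (hB f (mem_filter.1 hf).1).1 d.succ, hzero f hf⟩)
      -- the fibres
      have h2 := card_le_mul_card_image (s := BZ Z) (f := fun f => Fin.tail f)
        ((((n + 1) ^ 2 * n + 1) ^ (n + 1)) ^ n * Fintype.card ι ^ Z.card) (by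
          intro g hg
          obtain ⟨f0, hf0, hf0g⟩ := mem_image.1 hg
          let E : Set (ℂ × (Fin n → ℂ)) :=
            {e | ∃ c ∈ S, e = (val w (slice c none) g, fun i => val w (slice c (some i)) g)}
          have h3 := fibre w hw hL E Z (by
              intro i hi
              have h4 : i ∉ Zf g := by
                rw [← hf0g, (mem_filter.1 hf0).2]
                exact hi
              have h5 : ¬ ∀ c ∈ S, val w (slice c (some i)) g = 0 := fun h =>
                h4 (mem_filter.2 ⟨mem_univ _, h⟩)
              push Not at h5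
              obtain ⟨c, hc, h6⟩ := h5
              exact ⟨_, ⟨c, hc, rfl⟩, h6⟩)
            (((BZ Z).filter fun f => Fin.tail f = g).image fun f => f 0) (by
              intro v hv
              obtain ⟨f, hf, rfl⟩ := mem_image.1 hv
              have hf := mem_filter.1 hf
              have hfB := (mem_filter.1 hf.1).1
              refine ⟨(hB f hfB).1 0, ?_⟩
              rintro e ⟨c, hc, rfl⟩
              have h6 := (hB f hfB).2 c hc
              rw [val_succ, hf.2] at h6
              exact h6)
          have h4 : (((BZ Z).filter fun f => Fin.tail f = g).image fun f => f 0).card =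
              ((BZ Z).filter fun f => Fin.tail f = g).card := by
            refine card_image_of_injOn ?_
            intro f hf f' hf' hff
            have hf := mem_filter.1 (by exact_mod_cast hf : f ∈ _)
            have hf' := mem_filter.1 (by exact_mod_cast hf' : f' ∈ _)
            rw [← Fin.cons_self_tail f, ← Fin.cons_self_tail f']
            have h7 : Fin.tail f = Fin.tail f' := hf.2.trans hf'.2.symm
            have h8 : f 0 = f' 0 := hff
            rw [h7, h8]
          rw [h4] at h3
          exact h3)
      refine h2.trans ((Nat.mul_le_mul_left _ h1).trans ?_)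
      calc (((n + 1) ^ 2 * n + 1) ^ (n + 1)) ^ n * Fintype.card ι ^ Z.card *
            (KD n (D + 1) * Fintype.card ι ^ ((D + 1) * n - (t - (n - Z.card)))) =
            (((n + 1) ^ 2 * n + 1) ^ (n + 1)) ^ n * KD n (D + 1) *
              Fintype.card ι ^ (Z.card + ((D + 1) * n - (t - (n - Z.card)))) := by
            rw [pow_add]
            ring
        _ ≤ _ := by
            refine Nat.mul_le_mul_left _ (Nat.pow_le_pow_right hN ?_)
            have e : (D + 1 + 1) * n = (D + 1) * n + n := by ring
            rw [e]
            omega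
    calc B.card ≤ (univ.biUnion BZ).card := card_le_card hcov
      _ ≤ ∑ Z, (BZ Z).card := card_biUnion_le
      _ ≤ ∑ _Z : Finset (Fin n), (((n + 1) ^ 2 * n + 1) ^ (n + 1)) ^ n * KD n (D + 1) *
          Fintype.card ι ^ ((D + 1 + 1) * n - t) := sum_le_sum fun Z _ => hBZ Z
      _ = _ := by
          rw [sum_const, card_univ, Fintype.card_finset, Fintype.card_fin, smul_eq_mul, KD, KD,
            pow_succ _ (D + 1)]
          ring

end Pool.Agent.K9h27.HG
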