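import Pool.Agent.K9h27.HG.Alg

/-!
# Zeros of block-affine polynomials at logarithms: algebraic coefficients, conclusion
-/

set_option autoImplicit false

namespace Pool.Agent.K9h27.HG

open Finset
open Pool.Agent.H301R2.SSE (QB mem_QB Lt)

/-- the bound for sets -/
theorem up_coverA {n D N : ℕ} (hn : 0 < n) (w : Fin N → ℂ)
    (hw : LinearIndependent QB (fun o : Option (Fin N) => o.elim 1 w)) (hL : ∀ i, w i ∈ Lt)
    (S : Set ((Fin (D + 1) → Option (Fin n)) → ℂ)) (hS : ∀ c ∈ S, ∀ k, IsAlgebraic ℚ (c k))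
    (t : ℕ) (ht : ∀ V, CoverA S V → t ≤ V.card) :
    {f : Fin (D + 1) → Fin n → Fin N | (∀ d, Function.Injective (f d)) ∧
      ∀ c ∈ S, val w c f = 0}.ncard ≤ KD n (D + 1) * N ^ ((D + 1) * n - t) := by
  classical
  rcases Nat.eq_zero_or_pos N with h0 | hN
  · subst h0
    have h1 : {f : Fin (D + 1) → Fin n → Fin 0 | (∀ d, Function.Injective (f d)) ∧
        ∀ c ∈ S, val w c f = 0} = ∅ := by
      ext f
      exact (f 0 ⟨0, hn⟩).elim0
    rw [h1, Set.ncard_empty]
    exact Nat.zero_le _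
  · rw [Set.ncard_eq_toFinset_card']
    have h1 := cover_boundA n D (by rwa [Fintype.card_fin]) w hw hL S hS t ht
      {f : Fin (D + 1) → Fin n → Fin N | (∀ d, Function.Injective (f d)) ∧
        ∀ c ∈ S, val w c f = 0}.toFinset (by
        intro f hf
        have h2 := Set.mem_toFinset.1 hf
        exact h2)
    rw [Fintype.card_fin] at h1
    exact h1

end Pool.Agent.K9h27.HG
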