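import Pool.Agent.K9h27.RB.Col

/-!
# Zeros of block-affine polynomials at logarithms: the bound by the cover number
-/

set_option autoImplicit false

namespace Pool.Agent.K9h27.HG

open Finset
open Pool.Agent.H301R2.SSE (QB mem_QB Lt)
open Pool.Agent.K9h27.RB (few_affine)

/-- the value at `f` of the block-affine polynomial with the coefficients `c` -/
noncomputable def val {D n : ℕ} {ι : Type} (w : ι → ℂ) (c : (Fin D → Option (Fin n)) → ℂ)
    (f : Fin D → Fin n → ι) : ℂ :=
  ∑ k, c k * ∏ d, (k d).elim 1 (fun i => w (f d i))

/-- the slice -/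
def slice {D n : ℕ} (c : (Fin (D + 1) → Option (Fin n)) → ℂ) (o : Option (Fin n)) :
    (Fin D → Option (Fin n)) → ℂ := fun k => c (Fin.cons o k)

theorem val_succ {D n : ℕ} {ι : Type} (w : ι → ℂ) (c : (Fin (D + 1) → Option (Fin n)) → ℂ)
    (f : Fin (D + 1) → Fin n → ι) :
    val w c f = val w (slice c none) (Fin.tail f) +
      ∑ i, val w (slice c (some i)) (Fin.tail f) * w (f 0 i) := by
  have h : val w c f = ∑ o : Option (Fin n), val w (slice c o) (Fin.tail f) *
      o.elim 1 (fun i => w (f 0 i)) := by
    unfold val
    rw [← (Fin.consEquiv (fun _ : Fin (D + 1) => Option (Fin n))).sum_comp,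
      Fintype.sum_prod_type]
    refine sum_congr rfl fun o _ => ?_
    rw [sum_mul]
    refine sum_congr rfl fun k _ => ?_
    have e : (Fin.consEquiv (fun _ : Fin (D + 1) => Option (Fin n))) (o, k) = Fin.cons o k := rfl
    rw [e, Fin.prod_univ_succ]
    simp only [Fin.cons_zero, Fin.cons_succ, Fin.tail, slice]
    ring
  rw [h, Fintype.sum_option]
  simp only [Option.elim_none, Option.elim_some, mul_one]

/-- the top monomials -/
def Top {D n : ℕ} (c : (Fin D → Option (Fin n)) → ℂ) (k : Fin D → Option (Fin n)) : Prop :=
  c k ≠ 0 ∧ ∀ k', c k' ≠ 0 → ∀ d, k d = none → k' d = none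

/-- every top monomial contains a variable of `V` -/
def Cover {D n : ℕ} (S : Set ((Fin D → Option (Fin n)) → ℂ)) (V : Finset (Fin D × Fin n)) :
    Prop := ∀ c ∈ S, ∀ k, Top c k → ∃ d i, k d = some i ∧ (d, i) ∈ V

/-- all variables cover if there is a common zero -/
theorem cover_univ {D n : ℕ} {ι : Type} (w : ι → ℂ) (S : Set ((Fin D → Option (Fin n)) → ℂ))
    (g : Fin D → Fin n → ι) (hg : ∀ c ∈ S, val w c g = 0) : Cover S univ := by
  intro c hc k hk
  by_contra h
  have hnone : ∀ d, k d = none := by
    intro d
    rcases hd : k d with _ | i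
    · rfl
    · exact absurd ⟨d, i, hd, mem_univ _⟩ h
  have h1 : val w c g = c k := by
    unfold val
    rw [sum_eq_single k]
    · rw [prod_eq_one, mul_one]
      intro d _
      rw [hnone d, Option.elim_none]
    · intro k' _ hk'
      have h2 : c k' = 0 := by
        by_contra h3
        apply hk'
        funext d
        rw [hk.2 k' h3 d (hnone d), hnone d]
      rw [h2, zero_mul]
    · intro h2
      exact absurd (mem_univ _) h2
  exact hk.1 (h1.symm.trans (hg c hc))

/-- the solutions of a system of affine equations -/
theorem fibre {ι : Type} [Fintype ι] [DecidableEq ι] (w : ι → ℂ)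
    (hw : LinearIndependent QB (fun o : Option ι => o.elim 1 w)) (hL : ∀ i, w i ∈ Lt) {n : ℕ}
    (E : Set (ℂ × (Fin n → ℂ))) (Z : Finset (Fin n)) (hZ : ∀ i, i ∉ Z → ∃ e ∈ E, e.2 i ≠ 0)
    (R : Finset (Fin n → ι)) (hR : ∀ v ∈ R, Function.Injective v ∧
      ∀ e ∈ E, e.1 + ∑ i, e.2 i * w (v i) = 0) :
    R.card ≤ (((n + 1) ^ 2 * n + 1) ^ (n + 1)) ^ n * Fintype.card ι ^ Z.card := by
  classical
  let K := ((n + 1) ^ 2 * n + 1) ^ (n + 1)
  let Val : Fin n → Finset ι := fun i => if i ∈ Z then univ else R.image fun v => v i
  have hVal : ∀ i, i ∉ Z → (Val i).card ≤ K := by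
    intro i hi
    obtain ⟨e, heE, he⟩ := hZ i hi
    simp only [Val, if_neg hi]
    let A : Finset (Fin n) := univ.filter fun j => e.2 j ≠ 0
    have hiA : i ∈ A := mem_filter.2 ⟨mem_univ _, he⟩
    let R' : Finset (A → ι) := univ.filter fun u => Function.Injective u ∧
      e.1 + ∑ j : A, e.2 j * w (u j) = 0
    have hR' := few_affine w hw hL (α := A) e.1 (fun j => e.2 j) (fun j => (mem_filter.1 j.2).2)
      R' (fun u hu => (mem_filter.1 hu).2) (n := n) (by
        rw [Fintype.card_coe]
        exact (card_le_univ A).trans (le_of_eq (Fintype.card_fin n)))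
    have hsub : (R.image fun v => v i) ⊆ R'.image (fun u => u ⟨i, hiA⟩) := by
      intro x hx
      obtain ⟨v, hv, rfl⟩ := mem_image.1 hx
      obtain ⟨h1, h2⟩ := hR v hv
      refine mem_image.2 ⟨fun j => v j, mem_filter.2 ⟨mem_univ _, ?_, ?_⟩, rfl⟩
      · intro a b hab
        exact Subtype.ext (h1 hab)
      · rw [← h2 e heE]
        congr 1
        rw [sum_coe_sort A (fun j => e.2 j * w (v j)), sum_filter]
        refine sum_congr rfl fun j _ => ?_
        split_ifs with h3
        · rfl
        · rw [not_not.1 h3, zero_mul]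
    exact (card_le_card hsub).trans (card_image_le.trans hR')
  have hsub : R ⊆ Fintype.piFinset Val := by
    intro v hv
    rw [Fintype.mem_piFinset]
    intro i
    by_cases h : i ∈ Z
    · simp only [Val, if_pos h]
      exact mem_univ _
    · simp only [Val, if_neg h]
      exact mem_image_of_mem _ hv
  calc R.card ≤ (Fintype.piFinset Val).card := card_le_card hsub
    _ = ∏ i, (Val i).card := Fintype.card_piFinset _
    _ ≤ ∏ i, (if i ∈ Z then Fintype.card ι else 1) * K := by
        refine prod_le_prod' fun i _ => ?_
        by_cases h : i ∈ Z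
        · simp only [Val, if_pos h, card_univ]
          exact Nat.le_mul_of_pos_right _ (Nat.pow_pos (by omega))
        · rw [if_neg h, one_mul]
          exact hVal i h
    _ = _ := by
        rw [prod_mul_distrib, prod_const, card_univ, Fintype.card_fin, prod_ite_mem, univ_inter,
          prod_const, mul_comm]

/-- the constant -/
def KD (n D : ℕ) : ℕ := (2 ^ n * (((n + 1) ^ 2 * n + 1) ^ (n + 1)) ^ n) ^ D

/-- **The bound.** -/
theorem cover_bound (n D : ℕ) {ι : Type} [Fintype ι] [DecidableEq ι] (hN : 0 < Fintype.card ι)
    (w : ι → ℂ) (hw : LinearIndependent QB (fun o : Option ι => o.elim 1 w))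
    (hL : ∀ i, w i ∈ Lt) (S : Set ((Fin D → Option (Fin n)) → ℂ)) (t : ℕ)
    (ht : ∀ V, Cover S V → t ≤ V.card) (B : Finset (Fin D → Fin n → ι))
    (hB : ∀ f ∈ B, (∀ d, Function.Injective (f d)) ∧ ∀ c ∈ S, val w c f = 0) :
    B.card ≤ KD n D * Fintype.card ι ^ (D * n - t) := by
  classical
  induction D generalizing t with
  | zero =>
    have h1 : B.card ≤ 1 := Finset.card_le_one.2 fun a _ b _ => Subsingleton.elim _ _
    refine h1.trans ?_
    rw [KD, pow_zero, one_mul]
    exact Nat.one_le_pow _ _ hN
  | succ D ih =>
    let Zf : (Fin D → Fin n → ι) → Finset (Fin n) := fun g =>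
      univ.filter fun i => ∀ c ∈ S, val w (slice c (some i)) g = 0
    let BZ : Finset (Fin n) → Finset (Fin (D + 1) → Fin n → ι) := fun Z =>
      B.filter fun f => Zf (Fin.tail f) = Z
    have hcov : B ⊆ univ.biUnion BZ := fun f hf =>
      mem_biUnion.2 ⟨Zf (Fin.tail f), mem_univ _, mem_filter.2 ⟨hf, rfl⟩⟩
    have hBZ : ∀ Z, (BZ Z).card ≤ (((n + 1) ^ 2 * n + 1) ^ (n + 1)) ^ n * KD n D *
        Fintype.card ι ^ ((D + 1) * n - t) := by
      intro Z
      rcases Finset.eq_empty_or_nonempty (BZ Z) with hemp | ⟨f1, hf1⟩
      · rw [hemp, card_empty]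
        exact Nat.zero_le _
      let S' : Set ((Fin D → Option (Fin n)) → ℂ) := {c' | ∃ c ∈ S,
        (∃ i ∈ Z, c' = slice c (some i)) ∨ (c' = slice c none ∧ ∀ i, slice c (some i) = 0)}
      have hZn : Z.card ≤ n := (card_le_univ Z).trans (le_of_eq (Fintype.card_fin n))
      -- common zeros
      have hzero : ∀ f ∈ BZ Z, ∀ c' ∈ S', val w c' (Fin.tail f) = 0 := by
        intro f hf
        have hf := mem_filter.1 hf
        rintro c' ⟨c, hc, ⟨i, hi, rfl⟩ | ⟨rfl, h0⟩⟩
        · have h2 : i ∈ Zf (Fin.tail f) := by
            rw [hf.2]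
            exact hi
          exact (mem_filter.1 h2).2 c hc
        · have h2 := (hB f hf.1).2 c hc
          rw [val_succ] at h2
          rw [← h2]
          have h3 : ∀ i, val w (slice c (some i)) (Fin.tail f) = 0 := by
            intro i
            rw [h0 i]
            simp [val]
          simp only [h3, zero_mul, sum_const_zero, add_zero]
      have htV : ∀ V' : Finset (Fin D × Fin n), Cover S' V' → t - (n - Z.card) ≤ V'.card := by
        intro V' hV'
        let V : Finset (Fin (D + 1) × Fin n) :=
          (Zᶜ.map ⟨fun i => ((0 : Fin (D + 1)), i), fun a b h => congrArg Prod.snd h⟩) ∪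
            (V'.map ⟨fun p => (p.1.succ, p.2), fun a b h => by
              have h2 := congrArg Prod.fst h
              have h3 := congrArg Prod.snd h
              exact Prod.ext (Fin.succ_injective _ h2) h3⟩)
        have hV : V.card ≤ (n - Z.card) + V'.card := by
          refine (card_union_le _ _).trans ?_
          rw [card_map, card_map, card_compl, Fintype.card_fin]
        have hcover : Cover S V := by
          intro c hc k hk
          rcases hk0 : k 0 with _ | i
          · -- the block `0` does not occur
            have h2 : ∀ i, slice c (some i) = 0 := by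
              intro i
              funext k'
              by_contra h3
              have h4 := hk.2 _ h3 0 hk0
              rw [Fin.cons_zero] at h4
              exact absurd h4 (by simp)
            obtain ⟨d, i, h5, h6⟩ := hV' (slice c none) ⟨c, hc, Or.inr ⟨rfl, h2⟩⟩ (Fin.tail k) (by
              refine ⟨?_, ?_⟩
              · rw [slice, ← hk0, Fin.cons_self_tail]
                exact hk.1
              · intro k' hk' d hd
                have h7 := hk.2 _ hk' d.succ hd
                rwa [Fin.cons_succ] at h7)
            refine ⟨d.succ, i, h5, mem_union_right _ (mem_map.2 ⟨(d, i), h6, rfl⟩)⟩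
          · by_cases hi : i ∈ Z
            · obtain ⟨d, j, h5, h6⟩ := hV' (slice c (some i)) ⟨c, hc, Or.inl ⟨i, hi, rfl⟩⟩
                (Fin.tail k) (by
                  refine ⟨?_, ?_⟩
                  · rw [slice, ← hk0, Fin.cons_self_tail]
                    exact hk.1
                  · intro k' hk' d hd
                    have h7 := hk.2 _ hk' d.succ hd
                    rwa [Fin.cons_succ] at h7)
              refine ⟨d.succ, j, h5, mem_union_right _ (mem_map.2 ⟨(d, j), h6, rfl⟩)⟩
            · exact ⟨0, i, hk0, mem_union_left _ (mem_map.2 ⟨i, mem_compl.2 hi, rfl⟩)⟩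
        have h2 := ht V hcover
        omega
      have hle : t - (n - Z.card) ≤ D * n := by
        have h2 := htV univ (cover_univ w S' (Fin.tail f1) (hzero f1 hf1))
        rwa [card_univ, Fintype.card_prod, Fintype.card_fin, Fintype.card_fin] at h2
      -- the image
      have h1 := ih S' (t - (n - Z.card)) htV
        ((BZ Z).image fun f => Fin.tail f) (by
          intro g hg
          obtain ⟨f, hf, rfl⟩ := mem_image.1 hg
          exact ⟨fun d => (hB f (mem_filter.1 hf).1).1 d.succ, hzero f hf⟩)
      -- the fibres
      have h2 := card_le_mul_card_image (s := BZ Z) (f := fun f => Fin.tail f)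
        ((((n + 1) ^ 2 * n + 1) ^ (n + 1)) ^ n * Fintype.card ι ^ Z.card) (by
          intro g hg
          obtain ⟨f0, hf0, hf0g⟩ := mem_image.1 hg
          let E : Set (ℂ × (Fin n → ℂ)) :=
            {e | ∃ c ∈ S, e = (val w (slice c none) g, fun i => val w (slice c (some i)) g)}
          have h3 := fibre w hw hL E Z (by
              intro i hi
              have h4 : i ∉ Zf g := by
                rw [← hf0g, (mem_filter.1 hf0).2]
                exact hi
              have h5 : ¬ ∀ c ∈ S, val w (slice c (some i)) g = 0 := fun h =>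
                h4 (mem_filter.2 ⟨mem_univ _, h⟩)
              push Not at h5
              obtain ⟨c, hc, h6⟩ := h5
              exact ⟨_, ⟨c, hc, rfl⟩, h6⟩)
            (((BZ Z).filter fun f => Fin.tail f = g).image fun f => f 0) (by
              intro v hv
              obtain ⟨f, hf, rfl⟩ := mem_image.1 hv
              have hf := mem_filter.1 hf
              have hfB := (mem_filter.1 hf.1).1
              refine ⟨(hB f hfB).1 0, ?_⟩
              rintro e ⟨c, hc, rfl⟩
              have h6 := (hB f hfB).2 c hc
              rw [val_succ, hf.2] at h6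
              exact h6)
          have h4 : (((BZ Z).filter fun f => Fin.tail f = g).image fun f => f 0).card =
              ((BZ Z).filter fun f => Fin.tail f = g).card := by
            refine card_image_of_injOn ?_
            intro f hf f' hf' hff
            have hf := mem_filter.1 (by exact_mod_cast hf : f ∈ _)
            have hf' := mem_filter.1 (by exact_mod_cast hf' : f' ∈ _)
            rw [← Fin.cons_self_tail f, ← Fin.cons_self_tail f']
            have h7 : Fin.tail f = Fin.tail f' := hf.2.trans hf'.2.symm
            have h8 : f 0 = f' 0 := hff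
            rw [h7, h8]
          rw [h4] at h3
          exact h3)
      refine h2.trans ((Nat.mul_le_mul_left _ h1).trans ?_)
      calc (((n + 1) ^ 2 * n + 1) ^ (n + 1)) ^ n * Fintype.card ι ^ Z.card *
            (KD n D * Fintype.card ι ^ (D * n - (t - (n - Z.card)))) =
            (((n + 1) ^ 2 * n + 1) ^ (n + 1)) ^ n * KD n D *
              Fintype.card ι ^ (Z.card + (D * n - (t - (n - Z.card)))) := by
            rw [pow_add]
            ring
        _ ≤ _ := by
            refine Nat.mul_le_mul_left _ (Nat.pow_le_pow_right hN ?_)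
            have e : (D + 1) * n = D * n + n := by ring
            rw [e]
            omega
    calc B.card ≤ (univ.biUnion BZ).card := card_le_card hcov
      _ ≤ ∑ Z, (BZ Z).card := card_biUnion_le
      _ ≤ ∑ _Z : Finset (Fin n), (((n + 1) ^ 2 * n + 1) ^ (n + 1)) ^ n * KD n D *
          Fintype.card ι ^ ((D + 1) * n - t) := sum_le_sum fun Z _ => hBZ Z
      _ = _ := by
          rw [sum_const, card_univ, Fintype.card_finset, Fintype.card_fin, smul_eq_mul, KD, KD,
            pow_succ]
          ring

end Pool.Agent.K9h27.HG
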