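import Pool.Agent.K9h27.HG.Main
import Pool.Agent.K9h27.RB.Top

/-!
# Zeros of block-affine polynomials at logarithms: matrix functions, conclusion
-/

set_option autoImplicit false

namespace Pool.Agent.K9h27.HG

open Finset
open Pool.Agent.H301R2.SSE (QB mem_QB Lt)

/-- the value of a generalised matrix function -/
noncomputable def mfun {n : ℕ} {ι : Type} (c : Equiv.Perm (Fin n) → ℂ) (w : ι → ℂ)
    (f : Fin n → Fin n → ι) : ℂ := ∑ σ, c σ * ∏ d, w (f d (σ d))

open Classical in
/-- its coefficients, and a constant -/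
noncomputable def mco {n : ℕ} (c : Equiv.Perm (Fin n) → ℂ) (z : ℂ) :
    (Fin n → Option (Fin n)) → ℂ := fun k =>
  (∑ σ : Equiv.Perm (Fin n), if (fun d => some (σ d)) = k then c σ else 0) +
    if (fun _ => none) = k then z else 0

theorem val_mco {n : ℕ} {ι : Type} (c : Equiv.Perm (Fin n) → ℂ) (z : ℂ) (w : ι → ℂ)
    (f : Fin n → Fin n → ι) : val w (mco c z) f = mfun c w f + z := by
  classical
  unfold val mco mfun
  simp only [add_mul, sum_add_distrib, sum_mul]
  congr 1
  · rw [sum_comm]
    refine sum_congr rfl fun σ _ => ?_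
    rw [sum_eq_single (fun d => some (σ d))]
    · rw [if_pos rfl]
      simp only [Option.elim_some]
    · intro k _ hk
      rw [if_neg (Ne.symm hk), zero_mul]
    · intro h
      exact absurd (mem_univ _) h
  · rw [sum_eq_single (fun _ => none)]
    · rw [if_pos rfl]
      simp only [Option.elim_none, prod_const_one, mul_one]
    · intro k _ hk
      rw [if_neg (Ne.symm hk), zero_mul]
    · intro h
      exact absurd (mem_univ _) h

theorem mco_perm {n : ℕ} (hn : 0 < n) (c : Equiv.Perm (Fin n) → ℂ) (z : ℂ)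
    (σ : Equiv.Perm (Fin n)) : mco c z (fun d => some (σ d)) = c σ := by
  classical
  unfold mco
  rw [if_neg, add_zero, sum_eq_single σ]
  · rw [if_pos rfl]
  · intro τ _ hτ
    rw [if_neg]
    intro h
    apply hτ
    ext d
    have h1 := congrFun h d
    exact congrArg Fin.val (Option.some_injective _ h1)
  · intro h
    exact absurd (mem_univ _) h
  · intro h
    exact absurd (congrFun h ⟨0, hn⟩) (by simp)

/-- fewer than `n` entries do not meet all permutations -/
theorem cover_perm {n : ℕ} (hn : 0 < n) (c : Equiv.Perm (Fin n) → ℂ) (hc : ∀ σ, c σ ≠ 0) (z : ℂ)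
    (V : Finset (Fin n × Fin n)) (hV : Cover {mco c z} V) : n ≤ V.card := by
  classical
  haveI : NeZero n := ⟨hn.ne'⟩
  have h : ∀ a : Fin n, ∃ p ∈ V, p.2 - p.1 = a := by
    intro a
    obtain ⟨d, i, h1, h2⟩ := hV (mco c z) rfl (fun d => some ((Equiv.addRight a) d)) (by
      refine ⟨?_, ?_⟩
      · rw [mco_perm hn]
        exact hc _
      · intro k' _ d hd
        exact absurd hd (by simp))
    refine ⟨(d, i), h2, ?_⟩
    have h3 : d + a = i := Option.some_injective _ h1
    show i - d = a
    rw [← h3, add_sub_cancel_left]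
  have h1 : (univ : Finset (Fin n)) ⊆ V.image fun p => p.2 - p.1 := by
    intro a _
    obtain ⟨p, hp, hpa⟩ := h a
    exact mem_image.2 ⟨p, hp, hpa⟩
  have h2 := (card_le_card h1).trans card_image_le
  rwa [card_univ, Fintype.card_fin] at h2

/-- the bound for sets -/
theorem up_cover {n D N : ℕ} (hn : 0 < n) (hD : 0 < D) (w : Fin N → ℂ)
    (hw : LinearIndependent QB (fun o : Option (Fin N) => o.elim 1 w)) (hL : ∀ i, w i ∈ Lt)
    (S : Set ((Fin D → Option (Fin n)) → ℂ)) (t : ℕ) (ht : ∀ V, Cover S V → t ≤ V.card) :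
    {f : Fin D → Fin n → Fin N | (∀ d, Function.Injective (f d)) ∧ ∀ c ∈ S, val w c f = 0}.ncard ≤
      KD n D * N ^ (D * n - t) := by
  classical
  rcases Nat.eq_zero_or_pos N with h0 | hN
  · subst h0
    have h1 : {f : Fin D → Fin n → Fin 0 | (∀ d, Function.Injective (f d)) ∧
        ∀ c ∈ S, val w c f = 0} = ∅ := by
      ext f
      exact (f ⟨0, hD⟩ ⟨0, hn⟩).elim0
    rw [h1, Set.ncard_empty]
    exact Nat.zero_le _
  · rw [Set.ncard_eq_toFinset_card']
    have h1 := cover_bound n D (by rwa [Fintype.card_fin]) w hw hL S t ht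
      {f : Fin D → Fin n → Fin N | (∀ d, Function.Injective (f d)) ∧
        ∀ c ∈ S, val w c f = 0}.toFinset (by
        intro f hf
        have h2 := Set.mem_toFinset.1 hf
        exact h2)
    rw [Fintype.card_fin] at h1
    exact h1

/-- the matrix functions -/
theorem up_mfun {n N : ℕ} (hn : 0 < n) (w : Fin N → ℂ)
    (hw : LinearIndependent QB (fun o : Option (Fin N) => o.elim 1 w)) (hL : ∀ i, w i ∈ Lt)
    (c : Equiv.Perm (Fin n) → ℂ) (hc : ∀ σ, c σ ≠ 0) (z : ℂ) :
    {f : Fin n → Fin n → Fin N | (∀ d, Function.Injective (f d)) ∧ mfun c w f = z}.ncard ≤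
      KD n n * N ^ (n * n - n) := by
  have h1 := up_cover hn hn w hw hL {mco c (-z)} n (cover_perm hn c hc (-z))
  have h2 : {f : Fin n → Fin n → Fin N | (∀ d, Function.Injective (f d)) ∧ mfun c w f = z} =
      {f : Fin n → Fin n → Fin N | (∀ d, Function.Injective (f d)) ∧
        ∀ c' ∈ ({mco c (-z)} : Set _), val w c' f = 0} := by
    ext f
    simp only [Set.mem_setOf_eq, Set.mem_singleton_iff, forall_eq, val_mco]
    rw [← sub_eq_add_neg, sub_eq_zero]
  rw [h2]
  exact h1

/-- the determinant -/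
theorem low_det {n N : ℕ} (hn : 2 ≤ n) (w : Fin N → ℂ) :
    N.descFactorial n ^ (n - 1) ≤ {f : Fin n → Fin n → Fin N | (∀ d, Function.Injective (f d)) ∧
      mfun (fun σ => ((Equiv.Perm.sign σ : ℤ) : ℂ)) w f = 0}.ncard := by
  classical
  let F : (Fin (n - 1) → (Fin n ↪ Fin N)) → (Fin n → Fin n → Fin N) := fun g d =>
    g ⟨(d : ℕ) - 1, by omega⟩
  have hF : Function.Injective F := by
    intro g g' h
    funext d
    have h1 := congrFun h ⟨d + 1, by omega⟩
    have h2 : (g d : Fin n → Fin N) = g' d := h1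
    exact DFunLike.coe_injective h2
  have h3 : Set.range F ⊆ {f : Fin n → Fin n → Fin N | (∀ d, Function.Injective (f d)) ∧
      mfun (fun σ => ((Equiv.Perm.sign σ : ℤ) : ℂ)) w f = 0} := by
    rintro _ ⟨g, rfl⟩
    refine ⟨fun d => (g _).injective, ?_⟩
    have h4 : mfun (fun σ => ((Equiv.Perm.sign σ : ℤ) : ℂ)) w (F g) =
        (Matrix.of fun i d => w (F g d i)).det := by
      rw [Matrix.det_apply']
      rfl
    rw [h4]
    refine Matrix.det_zero_of_column_eq (i := (⟨0, by omega⟩ : Fin n)) (j := ⟨1, by omega⟩)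
      (by simp) ?_
    intro k
    rfl
  calc N.descFactorial n ^ (n - 1) = Nat.card (Fin (n - 1) → (Fin n ↪ Fin N)) := by
        rw [Nat.card_eq_fintype_card, Fintype.card_fun, Fintype.card_embedding_eq,
          Fintype.card_fin, Fintype.card_fin, Fintype.card_fin]
    _ = (Set.range F).ncard := by
        rw [← Set.image_univ, Set.ncard_image_of_injective _ hF, Set.ncard_univ]
    _ ≤ _ := Set.ncard_le_ncard h3 (Set.toFinite _)

end Pool.Agent.K9h27.HG
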