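import Pool.Agent.K9h27.HG.Main

/-!
# Zeros of block-affine polynomials at logarithms: an example with many zeros
-/

set_option autoImplicit false

namespace Pool.Agent.K9h27.HG

open Finset

/-- the sign of a pair of indices -/
def sgc {n : ℕ} (a b : Option (Fin n)) : ℤ :=
  a.elim 0 fun i => b.elim 0 fun j => if i < j then 1 else if j < i then -1 else 0

theorem sgc_symm {n : ℕ} (a b : Option (Fin n)) : sgc a b = - sgc b a := by
  cases a with
  | none => cases b <;> simp [sgc]
  | some i =>
    cases b with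
    | none => simp [sgc]
    | some j =>
      simp only [sgc, Option.elim_some]
      rcases lt_trichotomy i j with h | h | h
      · rw [if_pos h, if_neg (not_lt.2 h.le), if_pos h, neg_neg]
      · subst h
        simp
      · rw [if_neg (not_lt.2 h.le), if_pos h, if_pos h]

theorem sgc_ne {n : ℕ} (i j : Fin n) (h : i ≠ j) : sgc (some i) (some j) ≠ 0 := by
  simp only [sgc, Option.elim_some]
  rcases lt_trichotomy i j with h1 | h1 | h1
  · rw [if_pos h1]
    norm_num
  · exact absurd h1 h
  · rw [if_neg (not_lt.2 h1.le), if_pos h1]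
    norm_num

/-- the coefficients -/
def exc {D n : ℕ} (z0 z1 : Fin D) (k : Fin D → Option (Fin n)) : ℤ :=
  sgc (k z0) (k z1) * ∏ d, (if k d = none then 0 else 1)

theorem exc_zero {D n N : ℕ} (z0 z1 : Fin D) (w : Fin N → ℂ)
    (f : Fin D → Fin n → Fin N) (hf : f z0 = f z1) :
    val w (fun k => (exc z0 z1 k : ℂ)) f = 0 := by
  have hσf : ∀ d, f (Equiv.swap z0 z1 d) = f d := by
    intro d
    by_cases h0 : d = z0
    · subst h0
      rw [Equiv.swap_apply_left, hf]
    · by_cases h1 : d = z1
      · subst h1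
        rw [Equiv.swap_apply_right, hf]
      · rw [Equiv.swap_apply_of_ne_of_ne h0 h1]
  have h1 : val w (fun k => (exc z0 z1 k : ℂ)) f = - val w (fun k => (exc z0 z1 k : ℂ)) f := by
    unfold val
    rw [← sum_neg_distrib]
    rw [← (Equiv.arrowCongr (Equiv.swap z0 z1) (Equiv.refl (Option (Fin n)))).sum_comp]
    refine sum_congr rfl fun k _ => ?_
    have e : (Equiv.arrowCongr (Equiv.swap z0 z1) (Equiv.refl (Option (Fin n)))) k =
        fun d => k (Equiv.swap z0 z1 d) := by
      funext d
      simp [Equiv.arrowCongr]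
    rw [e]
    have h2 : exc z0 z1 (fun d => k (Equiv.swap z0 z1 d)) = - exc z0 z1 k := by
      unfold exc
      dsimp only
      rw [Equiv.swap_apply_left, Equiv.swap_apply_right, sgc_symm, neg_mul]
      congr 2
      exact Equiv.prod_comp (Equiv.swap z0 z1) (fun d => if k d = none then (0 : ℤ) else 1)
    have h3 : ∏ d, (k (Equiv.swap z0 z1 d)).elim 1 (fun i => w (f d i)) =
        ∏ d, (k d).elim 1 (fun i => w (f d i)) := by
      rw [← Equiv.prod_comp (Equiv.swap z0 z1) (fun d => (k d).elim 1 (fun i => w (f d i)))]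
      refine prod_congr rfl fun d _ => ?_
      rw [hσf]
    dsimp only
    rw [h2, h3, Int.cast_neg, neg_mul]
  have h2 : (2 : ℂ) * val w (fun k => (exc z0 z1 k : ℂ)) f = 0 := by
    rw [two_mul]
    nth_rewrite 1 [h1]
    ring
  exact (mul_eq_zero.1 h2).resolve_left two_ne_zero

theorem exc_cover {D n : ℕ} (hn : 2 ≤ n) (z0 z1 : Fin D) (hz : z0 ≠ z1)
    (V : Finset (Fin D × Fin n)) (hV : Cover {fun k => (exc z0 z1 k : ℂ)} V) : n ≤ V.card := by
  classical
  haveI : NeZero n := ⟨by omega⟩
  have hne : ∀ a : Fin n, a ≠ a + 1 := by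
    intro a h
    have h1 : (1 : Fin n) = 0 := by
      have h2 : a + 0 = a + 1 := by rw [add_zero]; exact h
      exact (add_left_cancel h2).symm
    have h2 := congrArg Fin.val h1
    rw [Fin.val_one', Fin.val_zero, Nat.mod_eq_of_lt (by omega)] at h2
    exact one_ne_zero h2
  have h : ∀ a : Fin n, ∃ p ∈ V, (if p.1 = z1 then p.2 - 1 else p.2) = a := by
    intro a
    obtain ⟨d, i, h1, h2⟩ := hV _ rfl (fun d => some (if d = z1 then a + 1 else a)) (by
      refine ⟨?_, ?_⟩
      · have h3 : exc z0 z1 (fun d => some (if d = z1 then a + 1 else a)) ≠ 0 := by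
          unfold exc
          dsimp only
          rw [if_neg hz, if_pos rfl]
          refine mul_ne_zero (sgc_ne _ _ (hne a)) ?_
          rw [prod_ne_zero_iff]
          intro d _
          rw [if_neg (by simp)]
          exact one_ne_zero
        show ((exc z0 z1 (fun d => some (if d = z1 then a + 1 else a)) : ℤ) : ℂ) ≠ 0
        exact_mod_cast h3
      · intro k' _ d hd
        exact absurd hd (by simp))
    refine ⟨(d, i), h2, ?_⟩
    have h3 : (if d = z1 then a + 1 else a) = i := Option.some_injective _ h1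
    by_cases hd : d = z1
    · rw [if_pos hd] at h3
      show (if d = z1 then i - 1 else i) = a
      rw [if_pos hd, ← h3, add_sub_cancel_right]
    · rw [if_neg hd] at h3
      show (if d = z1 then i - 1 else i) = a
      rw [if_neg hd, h3]
  have h1 : (univ : Finset (Fin n)) ⊆ V.image fun p => if p.1 = z1 then p.2 - 1 else p.2 := by
    intro a _
    obtain ⟨p, hp, hpa⟩ := h a
    exact mem_image.2 ⟨p, hp, hpa⟩
  have h2 := (card_le_card h1).trans card_image_le
  rwa [card_univ, Fintype.card_fin] at h2

theorem exc_many {D n N : ℕ} (hD : 2 ≤ D) (w : Fin N → ℂ) :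
    N.descFactorial n ^ (D - 1) ≤ {f : Fin D → Fin n → Fin N | (∀ d, Function.Injective (f d)) ∧
      val w (fun k => (exc (⟨0, by omega⟩ : Fin D) ⟨1, by omega⟩ k : ℂ)) f = 0}.ncard := by
  classical
  let F : (Fin (D - 1) → (Fin n ↪ Fin N)) → (Fin D → Fin n → Fin N) := fun g d =>
    g ⟨(d : ℕ) - 1, by omega⟩
  have hF : Function.Injective F := by
    intro g g' h
    funext d
    have h1 := congrFun h ⟨d + 1, by omega⟩
    have h2 : (g d : Fin n → Fin N) = g' d := h1
    exact DFunLike.coe_injective h2
  have h3 : Set.range F ⊆ {f : Fin D → Fin n → Fin N | (∀ d, Function.Injective (f d)) ∧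
      val w (fun k => (exc (⟨0, by omega⟩ : Fin D) ⟨1, by omega⟩ k : ℂ)) f = 0} := by
    rintro _ ⟨g, rfl⟩
    exact ⟨fun d => (g _).injective, exc_zero _ _ w _ rfl⟩
  calc N.descFactorial n ^ (D - 1) = Nat.card (Fin (D - 1) → (Fin n ↪ Fin N)) := by
        rw [Nat.card_eq_fintype_card, Fintype.card_fun, Fintype.card_embedding_eq,
          Fintype.card_fin, Fintype.card_fin, Fintype.card_fin]
    _ = (Set.range F).ncard := by
        rw [← Set.image_univ, Set.ncard_image_of_injective _ hF, Set.ncard_univ]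
    _ ≤ _ := Set.ncard_le_ncard h3 (Set.toFinite _)

end Pool.Agent.K9h27.HG
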